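import Pool.Agent.Results.MP_10e784_ag.DiagonalCurvesGenerated
import Pool.Agent.U265.VH.Seq

/-!
# Plane curves `a x ^ m + b y ^ n = c` with a class near a complex number: a uniform bound without exceptions

A curve `a x ^ m + b y ^ n = c` over a number field `K` in `ℂ` with a `K`-rational base point `P₀ = (x₀, y₀)`, `x₀ y₀ ≠ 0`, is the
scaling of `α x ^ m + (1 - α) y ^ n = 1` with the base point `(1, 1)`, `α = a x₀ ^ m / c`. The starting result
`DiagonalCurvesGenerated` shows that for all classes `(m, n, α)` but `Y ^ ε`, with `m, n ≤ Y ^ δ` and `gcd m n ≥ R`, over ALL number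
fields of degree at most `κ`, at most `2 μ_m μ_n` points are, relative to `P₀`, generated by `P` elements of height at most `Y`
(`μ_k` the number of `k`-th roots of unity in `K`).

**Theorem.** There is ONE set `E` of complex numbers of Hausdorff dimension ZERO such that for all `ξ` outside of `E`, all `κ`, `P` and all
`σ > 0` there are `R` and `δ > 0` such that for all large `Y` there is NO exceptional class `(m, n, α)` with `|ξ - α| ≤ Y ^ (-σ)`.
So ALL the curves with `gcd m n ≥ R`, `m, n ≤ Y ^ δ` and a class `α` near `ξ`, over all number fields of degree at most `κ`, satisfy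
the (sharp) uniform bound `2 μ_m μ_n`.

The proof: covers by the disks of radius `Y ^ (-σ)` around the exceptional classes (`Pool.Agent.U265.VH.seq_law`, from
`Pool.Agent.N84.MD.scales` of the starting library).
-/

set_option autoImplicit false

namespace Pool.Agent.Results.MP_10e784_ag.DiagonalCurvesNearAPoint

open Filter
open Pool.Agent.Results.MP_10e784_ag.DiagonalCurvesGenerated (exceptional Generated points)

lemma grow {δ δ' : ℝ} {Y Y' : ℕ} (hδ : 0 ≤ δ') (h : δ ≤ δ') (hY : 1 ≤ Y) (hYY : Y ≤ Y') : (Y : ℝ) ^ δ ≤ (Y' : ℝ) ^ δ' := by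
  have h1 : (1 : ℝ) ≤ Y := by exact_mod_cast hY
  have h2 : (Y : ℝ) ≤ Y' := by exact_mod_cast hYY
  exact (Real.rpow_le_rpow_of_exponent_le h1 h).trans (Real.rpow_le_rpow (by linarith) h2 hδ)

lemma generated_mono {K : Type} [Field K] [NumberField K] {P : ℕ} {Y Y' : ℕ} {y : Fin P → K} {B B' : ℝ} (hY : Y ≤ Y')
    (hB : B ≤ B') {x : K} (h : Generated Y y B x) : Generated Y' y B' x := by
  obtain ⟨s, f, h1, h2, h3⟩ := h
  have h0 : (Y : ℝ) ≤ Y' := by exact_mod_cast hY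
  exact ⟨s, f, h1.trans (pow_le_pow_left₀ (Nat.cast_nonneg _) h0 _), fun j => (h2 j).trans hB, h3⟩

lemma exceptional_mono {κ P R R' : ℕ} {δ δ' : ℝ} {Y Y' : ℕ} (hR : R' ≤ R) (hδ : 0 ≤ δ') (h : δ ≤ δ') (hY : 1 ≤ Y)
    (hYY : Y ≤ Y') : exceptional κ P R δ Y ⊆ exceptional κ P R' δ' Y' := by
  rintro t ⟨h1, h2, h3, h4, h5, K, i1, i2, σ, y, a, b, c, h6, h7, h8, h9, h10, P₀, h11, h12, h13⟩
  have hg := grow hδ h hY hYY
  have h0 : (Y : ℝ) ≤ Y' := by exact_mod_cast hYY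
  refine ⟨hR.trans h1, h2, h3, h4.trans hg, h5.trans hg, K, i1, i2, σ, y, a, b, c, h6,
    fun j => ⟨(h7 j).1, (h7 j).2.trans (pow_le_pow_left₀ (Nat.cast_nonneg _) h0 _)⟩, h8, h9, h10, P₀, h11, h12,
    h13.trans_le (Set.encard_le_encard ?_)⟩
  rintro Q ⟨g1, g2, g3⟩
  exact ⟨g1, generated_mono hYY hg g2, generated_mono hYY hg g3⟩

lemma inv_pos' (b : ℕ) : (0 : ℝ) < 1 / ((b : ℝ) + 1) := by positivity

lemma inv_mono' (b : ℕ) : 1 / (((b + 1 : ℕ) : ℝ) + 1) ≤ 1 / ((b : ℝ) + 1) := by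
  apply one_div_le_one_div_of_le (by positivity)
  push_cast
  linarith

lemma pick (R : ℕ) {δ : ℝ} (hδ : 0 < δ) : ∃ b : ℕ, R ≤ b ∧ 1 / ((b : ℝ) + 1) ≤ δ := by
  obtain ⟨n, hn⟩ := exists_nat_one_div_lt hδ
  refine ⟨max R n, le_max_left _ _, le_trans ?_ hn.le⟩
  apply one_div_le_one_div_of_le (by positivity)
  have : (n : ℝ) ≤ ((max R n : ℕ) : ℝ) := by exact_mod_cast le_max_right R n
  linarith

/-- **No exceptional classes near a complex number outside a set of Hausdorff dimension zero.** -/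
theorem result : ∃ E : Set ℂ, dimH E = 0 ∧ ∀ ξ : ℂ, ξ ∉ E → ∀ κ P : ℕ, 1 ≤ κ → ∀ σ : ℝ, 0 < σ →
    ∃ (R : ℕ) (δ : ℝ), 0 < δ ∧ ∀ᶠ Y : ℕ in atTop, ∀ (m n : ℕ) (α : ℂ), ‖ξ - α‖ ≤ (Y : ℝ) ^ (-σ) →
      (m, n, α) ∉ exceptional κ P R δ Y := by
  classical
  obtain ⟨E, hE, hlaw⟩ := Pool.Agent.U265.VH.seq_law
    (fun (a : {a : ℕ × ℕ // 1 ≤ a.1}) (b Y : ℕ) =>
      {q : Unit → ℂ | ∃ m n : ℕ, (m, n, q ()) ∈ exceptional a.1.1 a.1.2 b (1 / ((b : ℝ) + 1)) Y})
    (fun a b Y Y' h1 h2 => by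
      rintro q ⟨m, n, h⟩
      exact ⟨m, n, exceptional_mono (Nat.le_succ b) (inv_pos' b).le (inv_mono' b) h1 h2 h⟩)
    (fun a ε hε => by
      obtain ⟨⟨κ, P⟩, hκ⟩ := a
      obtain ⟨R, δ, hδ, H⟩ := DiagonalCurvesGenerated.result κ P ε hκ hε
      obtain ⟨b, hb1, hb2⟩ := pick R hδ
      refine ⟨b, 1, 1, zero_le_one, fun Y hY => ?_⟩
      obtain ⟨h1, h2⟩ := H Y hY
      have hsub : {q : Unit → ℂ | ∃ m n : ℕ, (m, n, q ()) ∈ exceptional κ P b (1 / ((b : ℝ) + 1)) Y} ⊆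
          (fun (t : ℕ × ℕ × ℂ) (_ : Unit) => t.2.2) '' exceptional κ P R δ Y := by
        rintro q ⟨m, n, h⟩
        exact ⟨(m, n, q ()), exceptional_mono hb1 hδ.le hb2 hY le_rfl h, rfl⟩
      have hfin := h1.image (fun (t : ℕ × ℕ × ℂ) (_ : Unit) => t.2.2)
      refine ⟨hfin.subset hsub, ?_⟩
      rw [one_mul]
      refine le_trans ?_ h2
      exact_mod_cast (Set.ncard_le_ncard hsub hfin).trans (Set.ncard_image_le h1))
  have hiso : Isometry (fun (ξ : ℂ) (_ : Unit) => ξ) := by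
    refine Isometry.of_dist_eq fun ξ η => ?_
    rw [dist_pi_const]
  refine ⟨(fun (ξ : ℂ) (_ : Unit) => ξ) ⁻¹' E, ?_, fun ξ hξ κ P hκ σ hσ => ?_⟩
  · refine le_antisymm ?_ bot_le
    rw [← hiso.dimH_image]
    exact (dimH_mono (Set.image_preimage_subset _ _)).trans hE.le
  · obtain ⟨b, hb⟩ := hlaw (fun _ => ξ) hξ ⟨(κ, P), hκ⟩ σ hσ
    refine ⟨b, _, inv_pos' b, ?_⟩
    filter_upwards [hb] with Y hY m n α hα hmem
    obtain ⟨j, hj⟩ := hY (fun _ => α) ⟨m, n, hmem⟩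
    exact absurd hα (not_le.2 hj)

end Pool.Agent.Results.MP_10e784_ag.DiagonalCurvesNearAPoint
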