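import Pool.Agent.U125.GF.Cnt
import Pool.Agent.U125.NO.Seq

/-!
# The curves `a x ^ m + b y ^ n = c` with coefficients from a normal orbit, all exponents at once

Let `c_0, c_1, …` be ANY normal orbit in `ℤ ^ 3`, for instance the vectors `(⌊B ^ t x_i⌋)_i` for any vector
`x` of three real numbers which is normal to the base `B`, or the orbit of any vector `v ≠ 0` along any normal
word in generators of a thin subgroup of `SL_3(ℤ)`. There is ONE set `E` of times of density zero such that for
ALL exponents `m, n ≥ 1` which are not coprime the following holds for all but finitely many `t` not in `E`: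
`a b c ≠ 0` for `(a, b, c) = c_t`, and the smooth projective curve with the affine equation
`a x ^ m + b y ^ n = c` has no rational point at all. The genus of these curves is unbounded.

The rational points at infinity of the smooth projective model correspond to the rational roots of
`a + b z ^ g`, `g = gcd(m, n)`, where `z = y ^ (n / g) / x ^ (m / g)`.

Proof. Let `p ≡ 1 mod g` be a prime which divides `c` exactly once and does not divide `a b`, such that `-a / b`
is not a `g`-th power modulo `p`. Then the `p`-adic valuation of `a x ^ m + b y ^ n` is divisible by `g` for all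
rational `x, y`, not both zero, and that of `c` is one. The classes modulo `p ^ 2` with this property have
density at least `1 / (16 g p)`, and the sum of the `1 / p`, `p ≡ 1 mod g`, diverges; so the exceptional vectors
are a pronull set, and normal orbits visit a pronull set only at times of density zero (engine
`Pool.Agent.U125.NO`: modulo `q` they are orbits along a normal sequence in a finite transitive system of
permutations, and these are equidistributed).
-/

set_option autoImplicit false

namespace Pool.Agent.Results.MP_10e784_ag.GeneralisedFermat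

open Filter Topology
open Pool.Agent.U125.NO (NormalOrbit Nul Examples examples)

/-- `a`, `b`, `c` are not zero and the smooth projective curve with the affine equation
`a x ^ m + b y ^ n = c` has no rational point: no affine one, and none at infinity (the rational points
at infinity correspond to the rational roots of `a + b z ^ g`, `g = gcd(m, n)`) -/
def NoRationalPoint (m n : ℕ) (a b c : ℤ) : Prop :=
  a ≠ 0 ∧ b ≠ 0 ∧ c ≠ 0 ∧ (∀ x y : ℚ, (a : ℚ) * x ^ m + b * y ^ n ≠ c) ∧
    ∀ z : ℚ, (a : ℚ) + b * z ^ Nat.gcd m n ≠ 0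

theorem of_obstr {p : ℕ} (hp : p.Prime) {m n : ℕ} (hm : 1 ≤ m) (hn : 1 ≤ n) (hmn : ¬ Nat.Coprime m n)
    {a b c : ℤ} (h : Pool.Agent.U125.GF.Obstr p (Nat.gcd m n) a b c) : NoRationalPoint m n a b c := by
  have hg0 : 0 < Nat.gcd m n := Nat.gcd_pos_of_pos_left n hm
  have hg : 2 ≤ Nat.gcd m n := by
    have h1 : Nat.gcd m n ≠ 1 := hmn
    omega
  obtain ⟨m', hm'⟩ := Nat.gcd_dvd_left m n
  obtain ⟨n', hn'⟩ := Nat.gcd_dvd_right m n
  have hm1 : 1 ≤ m' := by
    rcases Nat.eq_zero_or_pos m' with h0 | h0
    · rw [h0, mul_zero] at hm'; omega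
    · exact h0
  have hn1 : 1 ≤ n' := by
    rcases Nat.eq_zero_or_pos n' with h0 | h0
    · rw [h0, mul_zero] at hn'; omega
    · exact h0
  refine ⟨?_, ?_, ?_, fun x y => ?_, fun z => Pool.Agent.U125.GF.no_inf hp hg h z⟩
  · rintro rfl
    exact h.1 (dvd_zero _)
  · rintro rfl
    exact h.2.1 (dvd_zero _)
  · rintro rfl
    obtain ⟨c0, hc, hc0⟩ := h.2.2.1
    have hpz : (p : ℤ) ≠ 0 := by exact_mod_cast hp.ne_zero
    have : c0 = 0 := by
      rcases mul_eq_zero.1 hc.symm with h1 | h1
      · exact absurd h1 hpz
      · exact h1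
    exact hc0 (this ▸ dvd_zero _)
  · have h1 := Pool.Agent.U125.GF.no_rat hp hg hm1 hn1 h x y
    rw [← hm', ← hn'] at h1
    exact h1

/-- **Generalised Fermat curves along every normal orbit.** For every normal orbit `c` in `ℤ ^ 3` there is one set
`E` of density zero such that for all `m, n ≥ 1` which are not coprime, for all but finitely many `t` not in `E`,
the curve `a x ^ m + b y ^ n = d`, `(a, b, d) = c_t`, has no rational point. -/
theorem result :
    (∀ c : ℕ → Fin 3 → ℤ, NormalOrbit c → ∃ E : Set ℕ, Nul E ∧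
      ∀ m n : ℕ, 1 ≤ m → 1 ≤ n → ¬ Nat.Coprime m n →
        {t : ℕ | t ∉ E ∧ ¬ NoRationalPoint m n (c t 0) (c t 1) (c t 2)}.Finite) ∧
    Examples (Fin 3) := by
  refine ⟨fun c hc => ?_, examples (Fin 3)⟩
  obtain ⟨E, hE, h⟩ := hc.avoids.diag (K := {g : ℕ // 2 ≤ g})
    (fun g x => ¬ ∃ p : ℕ, p.Prime ∧ Pool.Agent.U125.GF.Obstr p g.1 (x 0) (x 1) (x 2))
    (fun g => Pool.Agent.U125.GF.pronull g.1 g.2)
  refine ⟨E, hE, fun m n hm hn hmn => ?_⟩
  have hg0 : 0 < Nat.gcd m n := Nat.gcd_pos_of_pos_left n hm
  have hg : 2 ≤ Nat.gcd m n := by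
    have h1 : Nat.gcd m n ≠ 1 := hmn
    omega
  refine (h ⟨Nat.gcd m n, hg⟩).subset ?_
  rintro t ⟨h1, h2⟩
  refine ⟨h1, ?_⟩
  rintro ⟨p, hp, ho⟩
  exact h2 (of_obstr hp hm hn hmn ho)

end Pool.Agent.Results.MP_10e784_ag.GeneralisedFermat
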