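import Pool.Agent.U449.BV.P
import Pool.Agent.Results.MP_10e784_ag.TwistsWithMixedFactors

/-!
# Rational points on the twists of hyperelliptic curves by the values of polynomials on arbitrary dense sets

Let `p` be a prime and `f(x, y)` ANY polynomial modulo `p` of degree at most `d` with a monomial which contains both variables (for
example `f = x y`), let `A`, `B` be ARBITRARY sets of residues modulo `p`, `g`, `h` ARBITRARY functions, and `1 ≤ W ≤ p`.
For all but `Θ |A| |B|` of the pairs `(a, b)` in `A × B`, where `Θ ^ 2 = C d e(p) (p / |A| + W p / |B|)`, `e(X) = 1 / (1 + log X) ^ s`, `s > 0` a number which depends on the curve,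
ALL squarefree integers `δ` with `|δ|` at a distance of at most `W` from the least residue of `f(a, b) + g(a) + h(b)` are such that
the twist `δ y² = ∏ k, F k (x, w)` has only trivial rational points (see the theorem).
So this holds for almost all pairs if `A`, `B` are dense and `W` is small in the same sense as the set of the exceptions is sparse.
More generally, this holds for all functions `F(a, b)` with few coincidences (`Rare`).

Since the sets and the functions `g` and `h` are arbitrary, the values have no arithmetic structure, and a value may be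
taken by very many pairs. So the number of the exceptions (starting library) does not give the result directly. Proof: the
inequality of Cauchy and Schwarz; for most pairs `a, a'` the difference `F(a, b) - F(a', b)` is small for few `b`
(`Pool.Agent.U449.BV`).
-/

set_option autoImplicit false

namespace Pool.Agent.Results.MP_10e784_ag.MixedOnDenseSets

open Polynomial
open Pool.Agent.U449.BV (Rare OnDense on_dense_twist residues)
open Pool.Agent.Results.MP_10e784_ag.TwistsWithMixedFactors (hom Factors General Point Const)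

/-- All rational points with `y ≠ 0` of ALL twists `t y² = ∏ k, F k (x, w)`, `t` squarefree, `||t| - v| ≤ W`, are of constant
type. -/
def NearConst {K : Type} [Fintype K] [DecidableEq K] (F : K → ℤ[X]) (W v : ℝ) : Prop :=
  ∀ t : ℤ, |(|t| : ℝ) - v| ≤ W → Squarefree t → ¬ ∃ x w y : ℚ, Point F t x w y ∧ ¬ Const F x w

/-- NONE of the twists `t y² = ∏ k, F k (x, w)`, `t` squarefree, `||t| - v| ≤ W`, has a rational point. -/
def NearNoPoint {K : Type} [Fintype K] (F : K → ℤ[X]) (W v : ℝ) : Prop :=
  ∀ t : ℤ, |(|t| : ℝ) - v| ≤ W → Squarefree t →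
    ¬ ∃ x w y : ℚ, (x ≠ 0 ∨ w ≠ 0) ∧ (t : ℚ) * y ^ 2 = ∏ k, hom (F k) x w

/-- For ALL squarefree `t`, `||t| - v| ≤ W`, the only rational points of `t y² = x⁵ - x` are `(0, 0)`, `(1, 0)`, `(-1, 0)`. -/
def NearFifth (W v : ℝ) : Prop :=
  ∀ t : ℤ, |(|t| : ℝ) - v| ≤ W → Squarefree t →
    {p : ℚ × ℚ | (t : ℚ) * p.2 ^ 2 = p.1 ^ 5 - p.1} = {(0, 0), (1, 0), (-1, 0)}

/-- **Theorem.** Let `F k ∈ ℤ[x]` be irreducible over `ℚ`, pairwise not associated, of even total degree, at least four of them of
odd degree. There is `s > 0` such that the property `NearConst F` (under the condition `General` on the linear factors), or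
`NearNoPoint F` (if there are no linear factors), holds for almost all values of functions of two variables with few
coincidences on arbitrary dense sets, with the density `1 / (1 + log X) ^ s` of exceptions (`OnDense`). The same for the
twists of `y² = x⁵ - x`.
The least residues modulo `p` of `f(a, b) + g(a) + h(b)` are such a function, bounded by `X = p`, for all primes `p`, all
polynomials `f` modulo `p` with a monomial which contains both variables, arbitrary functions `g` and `h`, and arbitrary sets of
residues. -/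
theorem result :
    (∀ (K : Type) [Fintype K] [DecidableEq K] (F : K → ℤ[X]), Factors F →
      (General F → ∃ s : ℝ, 0 < s ∧ OnDense (fun X => 1 / (1 + Real.log X) ^ s) (NearConst F)) ∧
      ((∀ k, (F k).natDegree ≠ 1) → ∃ s : ℝ, 0 < s ∧ OnDense (fun X => 1 / (1 + Real.log X) ^ s) (NearNoPoint F))) ∧
    (∃ s : ℝ, 0 < s ∧ OnDense (fun X => 1 / (1 + Real.log X) ^ s) NearFifth) ∧
    ∀ (p : ℕ) [Fact p.Prime] (d : ℕ) (f : MvPolynomial (Fin 2) (ZMod p)), f.totalDegree ≤ d →
      (∃ m ∈ f.support, m 0 ≠ 0 ∧ m 1 ≠ 0) → ∀ (g h : ZMod p → ZMod p) (A B : Finset (ZMod p)),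
        Rare d A B (fun a b => (((MvPolynomial.eval ![a, b] f + g a + h b).val : ℕ) : ℝ)) := by
  refine ⟨fun K _ _ F hF => ⟨fun hG => ?_, fun hl => ?_⟩, ?_, residues⟩
  · obtain ⟨s, hs, C, h⟩ := (TwistsWithMixedFactors.result.1 K F hF hG).1
    exact ⟨s, hs, on_dense_twist (Bad := fun t => ∃ x w y : ℚ, Point F t x w y ∧ ¬ Const F x w) hs.le 3 h⟩
  · obtain ⟨s, hs, C, h⟩ := TwistsWithMixedFactors.result.2.1 K F hF hl
    exact ⟨s, hs, on_dense_twist (Bad := fun t => ∃ x w y : ℚ, (x ≠ 0 ∨ w ≠ 0) ∧ (t : ℚ) * y ^ 2 = ∏ k, hom (F k) x w)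
      hs.le 3 h⟩
  · obtain ⟨s, hs, C, h⟩ := TwistsWithMixedFactors.result.2.2
    exact ⟨s, hs, (on_dense_twist (Bad := fun t : ℤ => {p : ℚ × ℚ | (t : ℚ) * p.2 ^ 2 = p.1 ^ 5 - p.1} ≠
      {(0, 0), (1, 0), (-1, 0)}) hs.le 3 h).mono (fun W v _ h' t ht hsq => not_not.1 (h' t ht hsq))⟩

end Pool.Agent.Results.MP_10e784_ag.MixedOnDenseSets
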