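import Mathlib
import Pool.Agent.U62.HY.RatFin

/-!
# Almost all hyperelliptic curves have no rational points of height up to `H ^ (g/2 + 3/4 - ε)`

Let `g ≥ 2` and let `f` be a random integer polynomial of degree at most `2 g + 2` with coefficients in
`[-H, H]`; so `y ^ 2 = f(x)` is a random hyperelliptic curve of genus `g`.

Theorem. (1) For every finite set `A` of rational numbers the probability that there is a rational point with
`x ∈ A` is at most `C(g)` times

  `H ^ (-1) + H ^ (-1/2) ∑ h(x) ^ (-(g+1)) + H ^ (-(g + 3/2)) ∑ τ(h(x))`,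

where `h(x) = max (|numerator|, denominator)`, the first sum is over the `x ∈ A` with `h(x) ≤ 4 H`, the second sum
over the other `x ∈ A`, and `τ` is the number of the divisors.

(2) The probability of a rational point with `T ≤ h(x) ≤ B` is at most
`C (H ^ (-1) + H ^ (-1/2) T ^ (-(g-1)) + B ^ 2 (1 + log B) H ^ (-(g + 3/2)))`.

(3) The probability that the curve has any rational point with `h(x) ≤ B`, or at infinity, is at most
`C (H ^ (-1/2) + B ^ 2 (1 + log B) H ^ (-(g + 3/2)))`. So almost all the curves have no rational points of height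
up to `H ^ (g/2 + 3/4 - ε)`.

Proof. The part of the small `x`, `h(x) ≤ 4 H`, is the library `U580/TT` of helper580. Let `x = a / b` with
`|a| ≥ |b|`, `|a| > 4 H` (the other case is symmetric), and let `F(a, b) = b ^ (2g+2) f(a/b) = y ^ 2` be a square. The
form `F` is determined by the value `F(a, b)`, since the coefficients are its digits in the base `a`. The number of
the possible `y` modulo `a ^ (g+1)` is `O(H ^ (g+1) τ(a))`, by induction on the number of the digits: given `y` modulo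
`a ^ k` there are at most `6 H` possibilities for `y` modulo `a ^ (k+1)` (if `c_0 ≠ 0` then `gcd(2 y, a) ≤ 4 H`), and the
number of the solutions of `y ^ 2 ≡ c b ^ (2g+2)` modulo `a` is `O(τ(a))` in the mean over `c`. As
`|y| = O(H ^ (1/2) |a| ^ (g+1))` there are `O(H ^ (g + 3/2) τ(a))` possible `y`, of the `(2 H + 1) ^ (2 g + 3)` forms.
-/

set_option autoImplicit false

namespace Pool.Agent.Results.MP_10e784_ag.NoPointsOfMediumHeight

open Polynomial

/-- the height of a rational number -/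
def height (x : ℚ) : ℕ := max x.num.natAbs x.den

/-- the integer polynomials of degree at most `2 g + 2` with coefficients in `[-H, H]` -/
def Polys (g H : ℕ) : Set ℤ[X] := {f | f.natDegree ≤ 2 * (g + 1) ∧ ∀ k, |f.coeff k| ≤ (H : ℤ)}

/-- the polynomials for which the curve `y ^ 2 = f(x)` has a rational point with abscissa in `A` -/
def WithPoint (g H : ℕ) (A : Set ℚ) : Set ℤ[X] :=
  {f | f ∈ Polys g H ∧ ∃ x ∈ A, ∃ y : ℚ, y ^ 2 = aeval x f}

/-- the polynomials for which the curve has a rational point at infinity (the coefficient of the degree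
`2 g + 2` is a square) -/
def WithPointAtInfinity (g H : ℕ) : Set ℤ[X] :=
  {f | f ∈ Polys g H ∧ ∃ y : ℤ, y ^ 2 = f.coeff (2 * (g + 1))}

/-- the proportion of a set of polynomials -/
noncomputable def proportion (g H : ℕ) (S : Set ℤ[X]) : ℝ := (S.ncard : ℝ) / ((Polys g H).ncard : ℝ)

/-- **Rational points on random hyperelliptic curves of genus `g`.** For every `g ≥ 2` there is `C > 0` such that
for all `H ≥ 1` the set `Polys g H` is finite and not empty and
(1) for every finite set `A` of rational numbers the probability of a rational point with `x ∈ A` is at most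
`C (H ^ (-1) + H ^ (-1/2) ∑ h(x) ^ (-(g+1)) + H ^ (-(g + 3/2)) ∑ τ(h(x)))`, the first sum over the `x ∈ A` of height at
most `4 H` and the second sum over the other ones;
(2) for all `T ≥ 1` and `B` the probability of a rational point with `T ≤ h(x) ≤ B` is at most
`C (H ^ (-1) + H ^ (-1/2) T ^ (-(g-1)) + B ^ 2 (1 + log B) H ^ (-(g + 3/2)))`;
(3) for all `B` the probability of a rational point with `h(x) ≤ B` or at infinity is at most
`C (H ^ (-1/2) + B ^ 2 (1 + log B) H ^ (-(g + 3/2)))`. -/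
theorem result (g : ℕ) (hg : 2 ≤ g) : ∃ C : ℝ, 0 < C ∧ ∀ H : ℕ, 1 ≤ H →
    (Polys g H).Finite ∧ (Polys g H).Nonempty ∧
    (∀ A : Finset ℚ, proportion g H (WithPoint g H A) ≤ C * ((H : ℝ) ^ (-1 : ℝ) +
      (H : ℝ) ^ (-(1 / 2) : ℝ) * (∑ x ∈ A.filter (fun x => height x ≤ 4 * H),
        (height x : ℝ) ^ (-((g : ℝ) + 1))) +
      (H : ℝ) ^ (-((g : ℝ) + 3 / 2)) * (∑ x ∈ A.filter (fun x => ¬ height x ≤ 4 * H),
        ((height x).divisors.card : ℝ)))) ∧
    (∀ T B : ℕ, 1 ≤ T → proportion g H (WithPoint g H {x | T ≤ height x ∧ height x ≤ B}) ≤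
      C * ((H : ℝ) ^ (-1 : ℝ) + (H : ℝ) ^ (-(1 / 2) : ℝ) * (T : ℝ) ^ (-((g : ℝ) - 1)) +
        (B : ℝ) ^ 2 * (1 + Real.log B) * (H : ℝ) ^ (-((g : ℝ) + 3 / 2)))) ∧
    (∀ B : ℕ, proportion g H (WithPoint g H {x | height x ≤ B} ∪ WithPointAtInfinity g H) ≤
      C * ((H : ℝ) ^ (-(1 / 2) : ℝ) + (B : ℝ) ^ 2 * (1 + Real.log B) * (H : ℝ) ^ (-((g : ℝ) + 3 / 2)))) := by
  classical
  obtain ⟨C₁, hC₁, h1⟩ := Pool.Agent.U62.HY.all_rat (g + 1) (by omega)
  obtain ⟨C₂, hC₂, h2⟩ := Pool.Agent.U62.HY.window_rat g hg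
  refine ⟨C₁ + 2 * C₂ + 1, by positivity, fun H hH => ?_⟩
  have hHr : (1 : ℝ) ≤ H := by exact_mod_cast hH
  obtain ⟨hfin, hpos, -⟩ := Pool.Agent.U580.TT.pl_card (2 * (g + 1)) H
  have hpos' : (0 : ℝ) < ((Polys g H).ncard : ℝ) := by exact_mod_cast hpos
  have hwin : ∀ T B : ℕ, 1 ≤ T → proportion g H (WithPoint g H {x | T ≤ height x ∧ height x ≤ B}) ≤
      C₂ * ((H : ℝ) ^ (-1 : ℝ) + (H : ℝ) ^ (-(1 / 2) : ℝ) * (T : ℝ) ^ (-((g : ℝ) - 1)) +
        (B : ℝ) ^ 2 * (1 + Real.log B) * (H : ℝ) ^ (-((g : ℝ) + 3 / 2))) := by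
    intro T B hT
    unfold proportion
    rw [div_le_iff₀ hpos']
    exact h2 H T B hH hT
  have hlog : ∀ B : ℕ, 0 ≤ Real.log B := fun B => Real.log_natCast_nonneg B
  refine ⟨hfin, Set.nonempty_of_ncard_ne_zero hpos.ne', fun A => ?_, fun T B hT => ?_, fun B => ?_⟩
  · unfold proportion
    rw [div_le_iff₀ hpos']
    have h3 := h1 H hH A
    have e1 : (-((g + 1 : ℕ) : ℝ) : ℝ) = -((g : ℝ) + 1) := by push_cast; ring
    have e2 : (-(((g + 1 : ℕ) : ℝ) + 1 / 2) : ℝ) = -((g : ℝ) + 3 / 2) := by push_cast; ring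
    rw [e1, e2] at h3
    refine h3.trans (mul_le_mul_of_nonneg_right (mul_le_mul_of_nonneg_right (by linarith) ?_) hpos'.le)
    refine add_nonneg (add_nonneg (by positivity) ?_) ?_
    · exact mul_nonneg (by positivity) (Finset.sum_nonneg fun x _ => by positivity)
    · exact mul_nonneg (by positivity) (Finset.sum_nonneg fun x _ => by positivity)
  · refine (hwin T B hT).trans (mul_le_mul_of_nonneg_right (by linarith) ?_)
    have := hlog B
    positivity
  · have h3 : WithPoint g H {x | height x ≤ B} = WithPoint g H {x | 1 ≤ height x ∧ height x ≤ B} := by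
      have : {x : ℚ | height x ≤ B} = {x | 1 ≤ height x ∧ height x ≤ B} := by
        ext x
        exact ⟨fun h => ⟨Pool.Agent.U62.HY.hgt_pos x, h⟩, fun h => h.2⟩
      rw [this]
    have h4 := hwin 1 B le_rfl
    have h5 : proportion g H (WithPointAtInfinity g H) ≤ (H : ℝ) ^ (-(1 / 2) : ℝ) := by
      unfold proportion
      rw [div_le_iff₀ hpos']
      exact Pool.Agent.U62.HY.infinity_ratio (2 * (g + 1)) H hH
    have h6 : proportion g H (WithPoint g H {x | height x ≤ B} ∪ WithPointAtInfinity g H) ≤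
        proportion g H (WithPoint g H {x | height x ≤ B}) + proportion g H (WithPointAtInfinity g H) := by
      unfold proportion
      rw [← add_div]
      refine div_le_div_of_nonneg_right ?_ hpos'.le
      exact_mod_cast Set.ncard_union_le _ _
    rw [← h3] at h4
    rw [Nat.cast_one, Real.one_rpow, mul_one] at h4
    have h7 : (H : ℝ) ^ (-1 : ℝ) ≤ (H : ℝ) ^ (-(1 / 2) : ℝ) :=
      Real.rpow_le_rpow_of_exponent_le hHr (by norm_num)
    obtain ⟨a, ha⟩ : ∃ a : ℝ, a = (H : ℝ) ^ (-(1 / 2) : ℝ) := ⟨_, rfl⟩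
    obtain ⟨c, hc⟩ : ∃ c : ℝ, c = (B : ℝ) ^ 2 * (1 + Real.log B) * (H : ℝ) ^ (-((g : ℝ) + 3 / 2)) := ⟨_, rfl⟩
    have ha0 : 0 ≤ a := by rw [ha]; positivity
    have hc0 : 0 ≤ c := by
      rw [hc]
      have := hlog B
      positivity
    rw [← ha, ← hc] at h4
    rw [← ha] at h5 h7
    rw [← ha, ← hc]
    have h8 : C₂ * ((H : ℝ) ^ (-1 : ℝ) + a + c) ≤ C₂ * (a + a + c) :=
      mul_le_mul_of_nonneg_left (by linarith) hC₂.le
    have h9 : 0 ≤ C₁ * (a + c) := by positivity
    have h10 : 0 ≤ C₂ * c := by positivity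
    calc proportion g H (WithPoint g H {x | height x ≤ B} ∪ WithPointAtInfinity g H)
        ≤ C₂ * (a + a + c) + a := by linarith
      _ ≤ (C₁ + 2 * C₂ + 1) * (a + c) := by nlinarith

end Pool.Agent.Results.MP_10e784_ag.NoPointsOfMediumHeight
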